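import Mathlib
import Pool.Agent.H958.RO.Stm

/-!
# RO-Count: few classes (helper264 for helper958)
-/

set_option autoImplicit false

namespace Pool.Agent.H264.RO.Count

open Finset
open scoped Classical
open Pool.Agent.W830.RD (Om gle Pr Rlz)
open Pool.Agent.H958.RO

theorem adj_res {n : ℕ} {E : Finset (Fin n × Fin n)} {S : Finset (Fin n)} {a b : Fin n} :
    (GG (res E S)).Adj a b ↔ (GG E).Adj a b ∧ a ∈ S ∧ b ∈ S := by
  have h1 : ∀ (F : Finset (Fin n × Fin n)) (a b : Fin n),
      (GG F).Adj a b ↔ a ≠ b ∧ ((a, b) ∈ F ∨ (b, a) ∈ F) := fun F a b => Iff.rfl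
  rw [h1, h1]
  unfold res
  rw [mem_filter, mem_filter]
  tauto

theorem ic_nil {n : ℕ} (bl : Fin n → ℕ) {G : SimpleGraph (Fin n)} (a : Fin n) :
    ic bl (SimpleGraph.Walk.nil : G.Walk a a) = 0 := by
  unfold ic
  simp

theorem ic_cons {n : ℕ} (bl : Fin n → ℕ) {G : SimpleGraph (Fin n)} {a b c : Fin n} (h : G.Adj a b)
    (p : G.Walk b c) : ic bl (SimpleGraph.Walk.cons h p) = (if bl a ≠ bl b then 1 else 0) + ic bl p := by
  unfold ic
  rw [SimpleGraph.Walk.darts_cons, List.filter_cons]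
  by_cases hab : bl a = bl b
  · simp [hab]
  · simp [hab]
    omega

theorem ic_append {n : ℕ} (bl : Fin n → ℕ) {G : SimpleGraph (Fin n)} {a b c : Fin n}
    (p : G.Walk a b) (q : G.Walk b c) : ic bl (p.append q) = ic bl p + ic bl q := by
  unfold ic
  rw [SimpleGraph.Walk.darts_append, List.filter_append, List.length_append]

theorem near_refl {n : ℕ} (E : Finset (Fin n × Fin n)) (bl : Fin n → ℕ) (S : Finset (Fin n)) (k : ℕ)
    (a : Fin n) : Near E bl S k a a := ⟨SimpleGraph.Walk.nil, by rw [ic_nil]; exact Nat.zero_le _⟩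

theorem near_trans {n : ℕ} {E : Finset (Fin n × Fin n)} {bl : Fin n → ℕ} {S : Finset (Fin n)}
    {k l : ℕ} {a b c : Fin n} (h : Near E bl S k a b) (h' : Near E bl S l b c) :
    Near E bl S (k + l) a c := by
  obtain ⟨p, hp⟩ := h
  obtain ⟨q, hq⟩ := h'
  exact ⟨p.append q, by rw [ic_append]; omega⟩

theorem near_edge {n : ℕ} {E : Finset (Fin n × Fin n)} {bl : Fin n → ℕ} {S : Finset (Fin n)}
    {a b : Fin n} (h : (GG (res E S)).Adj a b) (hab : bl a = bl b) : Near E bl S 0 a b := by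
  refine ⟨SimpleGraph.Walk.cons h SimpleGraph.Walk.nil, ?_⟩
  rw [ic_cons, ic_nil]
  simp [hab]

theorem near_symm {n : ℕ} {E : Finset (Fin n × Fin n)} {bl : Fin n → ℕ} {S : Finset (Fin n)}
    {a b : Fin n} (h : Near E bl S 0 a b) : Near E bl S 0 b a := by
  obtain ⟨p, hp⟩ := h
  induction p with
  | nil => exact near_refl _ _ _ _ _
  | cons h q ih =>
    rw [ic_cons] at hp
    have h1 : ic bl q ≤ 0 := by omega
    have h2 := ih h1
    rename_i u v w
    have h3 : bl u = bl v := by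
      by_contra hne
      rw [if_pos hne] at hp
      omega
    exact near_trans h2 (near_edge h.symm h3.symm)

section main

variable {n : ℕ} (E : Finset (Fin n × Fin n)) (bl : Fin n → ℕ) (S : Finset (Fin n))

/-- the vertices of degree at least three -/
noncomputable def B3 : Finset (Fin n) := S.filter (fun w => 3 ≤ dg E S w)

/-- the vertices near the vertices of degree at least three -/
noncomputable def Sj (j : ℕ) : Finset (Fin n) := S.filter (fun v => ∃ w ∈ B3 E S, Near E bl S j v w)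

/-- the vertices adjacent to `Sj` from outside -/
noncomputable def Rj (j : ℕ) : Finset (Fin n) :=
  (S \ Sj E bl S j).filter (fun u => ∃ u' ∈ Sj E bl S j, (GG E).Adj u u')

theorem B3_sub (j : ℕ) : B3 E S ⊆ Sj E bl S j := by
  intro w hw
  unfold Sj
  rw [mem_filter]
  exact ⟨(mem_filter.1 hw).1, w, hw, near_refl _ _ _ _ _⟩

theorem mem_Sj_of_walk {j : ℕ} {v w : Fin n} (hv : v ∈ S) (hw : w ∈ B3 E S)
    (p : (GG (res E S)).Walk v w) (hp : ic bl p ≤ j) : v ∈ Sj E bl S j := by
  unfold Sj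
  rw [mem_filter]
  exact ⟨hv, w, hw, p, hp⟩

/-- every vertex of `Sj` is joined to `B3` inside `Sj` -/
theorem reach {j : ℕ} {v w : Fin n} (hv : v ∈ S) (hw : w ∈ B3 E S)
    (p : (GG (res E S)).Walk v w) (hp : ic bl p ≤ j) :
    (GG (res E (Sj E bl S j))).Reachable v w := by
  induction p with
  | nil => exact SimpleGraph.Reachable.refl _
  | cons h q ih =>
    have hic := hp
    rw [ic_cons] at hp
    have h1 := adj_res.1 h
    have h2 := ih h1.2.2 hw (by omega)
    have h3 := mem_Sj_of_walk E bl S h1.2.2 hw q (by omega : ic bl q ≤ j)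
    have h4 := mem_Sj_of_walk E bl S hv hw (SimpleGraph.Walk.cons h q) hic
    exact (SimpleGraph.Adj.reachable (adj_res.2 ⟨h1.1, h4, h3⟩)).trans h2

/-- every vertex is near a vertex of `B3` or of one of the `Rj` -/
theorem claim (d : ℕ) : ∀ j ≤ d, ∀ v ∈ Sj E bl S j,
    ∃ r ∈ B3 E S ∪ (range d).biUnion (Rj E bl S), Near E bl S 0 v r := by
  intro j
  induction j using Nat.strong_induction_on with
  | _ j IH =>
    intro hj v hv
    unfold Sj at hv
    rw [mem_filter] at hv
    obtain ⟨hvS, w, hw, p, hp⟩ := hv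
    induction p with
    | nil => exact ⟨_, mem_union_left _ hw, near_refl _ _ _ _ _⟩
    | cons h q ih =>
      rename_i v u w
      rw [ic_cons] at hp
      have h1 := adj_res.1 h
      by_cases hb : bl v = bl u
      · obtain ⟨r, hr, hnr⟩ := ih h1.2.2 hw (by omega)
        refine ⟨r, hr, ?_⟩
        have := near_trans (near_edge h hb) hnr
        simpa using this
      · rw [if_pos hb] at hp
        have h3 : u ∈ Sj E bl S (j - 1) := mem_Sj_of_walk E bl S h1.2.2 hw q (by omega)
        by_cases h4 : v ∈ Sj E bl S (j - 1)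
        · exact IH (j - 1) (by omega) (by omega) v h4
        · refine ⟨v, mem_union_right _ ?_, near_refl _ _ _ _ _⟩
          rw [mem_biUnion]
          refine ⟨j - 1, mem_range.2 (by omega), ?_⟩
          unfold Rj
          rw [mem_filter, mem_sdiff]
          exact ⟨⟨hvS, h4⟩, u, h3, h1.1⟩

theorem Rj_card (j : ℕ) : (Rj E bl S j).card ≤ ∑ v ∈ S \ Sj E bl S j, dg E (Sj E bl S j) v := by
  calc (Rj E bl S j).card = ∑ v ∈ Rj E bl S j, 1 := by simp
    _ ≤ ∑ v ∈ Rj E bl S j, dg E (Sj E bl S j) v := by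
        refine sum_le_sum fun v hv => ?_
        unfold Rj at hv
        rw [mem_filter] at hv
        obtain ⟨-, u, hu, huv⟩ := hv
        unfold dg
        exact card_pos.2 ⟨u, mem_filter.2 ⟨hu, huv⟩⟩
    _ ≤ _ := sum_le_sum_of_subset (filter_subset _ _)

end main

theorem main (h1 : S_HAND) (h2 : S_PAR) : S_COUNT := by
  intro n E bl S d hE hS hdeg hnear
  have hB : ∀ v ∈ S, ∃ w ∈ B3 E S, Near E bl S d v w := by
    intro v hv
    obtain ⟨w, hw, hw3, hn⟩ := hnear v hv
    exact ⟨w, mem_filter.2 ⟨hw, hw3⟩, hn⟩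
  have hSd : ∀ v ∈ S, v ∈ Sj E bl S d := fun v hv => mem_filter.2 ⟨hv, hB v hv⟩
  -- total degrees
  have hS1 := h1 n E S S hE (Subset.refl S)
  rw [sdiff_self, Finset.bot_eq_empty, sum_empty, add_zero] at hS1
  have hsum : ∀ A ⊆ S, ∑ v ∈ A, dg E S v = 2 * A.card + ∑ v ∈ A, (dg E S v - 2) := by
    intro A hA
    rw [mul_comm, ← smul_eq_mul, ← sum_const, ← sum_add_distrib]
    refine sum_congr rfl fun v hv => ?_
    have := hdeg v (hA hv)
    omega
  have hB3c : (B3 E S).card ≤ ∑ v ∈ S, (dg E S v - 2) := by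
    calc (B3 E S).card = ∑ v ∈ B3 E S, 1 := by simp
      _ ≤ ∑ v ∈ B3 E S, (dg E S v - 2) := by
          refine sum_le_sum fun v hv => ?_
          have := (mem_filter.1 hv).2
          omega
      _ ≤ _ := sum_le_sum_of_subset (filter_subset _ _)
  have hB3n : (B3 E S).Nonempty := by
    obtain ⟨v, hv⟩ := hS
    obtain ⟨w, hw, -⟩ := hB v hv
    exact ⟨w, hw⟩
  have hB3p : 1 ≤ (B3 E S).card := card_pos.2 hB3n
  have hSS := hsum S (Subset.refl S)
  obtain ⟨x, hx⟩ : ∃ x, (res E S).card = S.card + x := ⟨(res E S).card - S.card, by omega⟩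
  have hx2 : ∑ v ∈ S, (dg E S v - 2) = 2 * x := by omega
  have hx1 : 1 ≤ x := by omega
  refine ⟨x, hx1, hx, ?_⟩
  -- the boundaries
  have hb : ∀ j, (Rj E bl S j).card ≤ 6 * x := by
    intro j
    have hsub : Sj E bl S j ⊆ S := filter_subset _ _
    have e1 := h1 n E S (Sj E bl S j) hE hsub
    have e2 := h2 n E (Sj E bl S j) (B3 E S) hE (B3_sub E bl S j) (by
      intro v hv
      have hv' := hv
      unfold Sj at hv'
      rw [mem_filter] at hv'
      obtain ⟨hvS, w, hw, p, hp⟩ := hv'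
      exact ⟨w, hw, reach E bl S hvS hw p hp⟩)
    have e3 := hsum _ hsub
    have e4 : ∑ v ∈ Sj E bl S j, (dg E S v - 2) ≤ ∑ v ∈ S, (dg E S v - 2) :=
      sum_le_sum_of_subset hsub
    have e5 := Rj_card E bl S j
    omega
  obtain ⟨R, hR⟩ : ∃ R, R = B3 E S ∪ (range d).biUnion (Rj E bl S) := ⟨_, rfl⟩
  have hRc : R.card ≤ (6 * d + 2) * x := by
    rw [hR]
    refine (card_union_le _ _).trans ?_
    have e1 : ((range d).biUnion (Rj E bl S)).card ≤ d * (6 * x) := by
      refine card_biUnion_le.trans ?_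
      calc ∑ j ∈ range d, (Rj E bl S j).card ≤ ∑ j ∈ range d, 6 * x :=
            sum_le_sum fun j _ => hb j
        _ = d * (6 * x) := by rw [sum_const, card_range, smul_eq_mul]
    have e2 : (6 * d + 2) * x = 2 * x + d * (6 * x) := by ring
    omega
  have hRn : R.Nonempty := by
    rw [hR]
    exact hB3n.mono subset_union_left
  have hcl : ∀ v, ∃ r ∈ R, v ∈ S → Near E bl S 0 v r := by
    intro v
    by_cases hv : v ∈ S
    · obtain ⟨r, hr, hn⟩ := claim E bl S d d le_rfl v (hSd v hv)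
      exact ⟨r, by rw [hR]; exact hr, fun _ => hn⟩
    · obtain ⟨r, hr⟩ := hRn
      exact ⟨r, hr, fun h => absurd h hv⟩
  choose r hrR hrn using hcl
  have hcard : Fintype.card R ≤ Fintype.card (Fin ((6 * d + 2) * x)) := by
    rw [Fintype.card_coe, Fintype.card_fin]
    exact hRc
  obtain ⟨ι⟩ := Function.Embedding.nonempty_of_card_le hcard
  refine ⟨fun v => ι ⟨r v, hrR v⟩, ?_⟩
  intro a ha b hb' hab
  have e1 : r a = r b := congrArg Subtype.val (ι.injective hab)
  have n1 := hrn a ha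
  have n2 := near_symm (hrn b hb')
  rw [e1] at n1
  exact near_trans n1 n2

end Pool.Agent.H264.RO.Count
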