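import Pool.Agent.H705.RO.Stm

/-!
ARU: the measure of the `u ∈ [0, 1]` for which `c + l u` is near an integer.
-/

set_option autoImplicit false

namespace Pool.Agent.H264.RO

open MeasureTheory ProbabilityTheory Filter Topology Finset
open Pool.Agent.H705.RO

theorem T_ARU (hARC : P_ARC) : P_ARU := by
  intro c l δ hl h0 h1
  obtain ⟨-, hA, -⟩ := hARC
  have hlpos : 0 < |l| := abs_pos.2 hl
  set z : ℝ := min c (c + l) with hz
  set m : ℕ := ⌈|l|⌉₊ with hm
  have hm1 : 1 ≤ m := Nat.one_le_iff_ne_zero.2 (Nat.ceil_pos.2 hlpos).ne'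
  have hml : |l| ≤ m := Nat.le_ceil _
  have hmu : (m : ℝ) ≤ |l| + 1 := (Nat.ceil_lt_add_one hlpos.le).le
  set T : Set ℝ := ⋃ i ∈ Finset.range m,
    (fun y => -(z + i) + y) ⁻¹' {v : ℝ | v ∈ Set.Icc (0 : ℝ) 1 ∧ nr δ ((z + i) + v)} with hT
  have hsub : {u : ℝ | u ∈ Set.Icc (0 : ℝ) 1 ∧ nr δ (c + l * u)} ⊆
      (fun u => l * u) ⁻¹' ((fun x => c + x) ⁻¹' T) := by
    rintro u ⟨⟨hu0, hu1⟩, hu⟩
    show c + l * u ∈ T
    have hy0 : z ≤ c + l * u := by
      rcases le_total 0 l with h | h
      · have : 0 ≤ l * u := mul_nonneg h hu0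
        exact (min_le_left _ _).trans (by linarith)
      · have : l * 1 ≤ l * u := mul_le_mul_of_nonpos_left hu1 h
        exact (min_le_right _ _).trans (by linarith)
    have hy1 : c + l * u ≤ z + |l| := by
      rcases le_total 0 l with h | h
      · have h2 : l * u ≤ l * 1 := mul_le_mul_of_nonneg_left hu1 h
        rw [hz, min_eq_left (by linarith), abs_of_nonneg h]
        linarith
      · have h2 : l * u ≤ 0 := mul_nonpos_of_nonpos_of_nonneg h hu0
        rw [hz, min_eq_right (by linarith), abs_of_nonpos h]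
        linarith
    generalize c + l * u = y at *
    set j : ℕ := min ⌊y - z⌋₊ (m - 1) with hj
    have hyz : 0 ≤ y - z := by linarith
    have hjm : j < m := lt_of_le_of_lt (min_le_right _ _) (by omega)
    have hj1 : (j : ℝ) ≤ y - z := by
      have : (j : ℝ) ≤ (⌊y - z⌋₊ : ℝ) := by exact_mod_cast min_le_left _ _
      exact this.trans (Nat.floor_le hyz)
    have hj2 : y - z ≤ j + 1 := by
      rcases le_total ⌊y - z⌋₊ (m - 1) with h | h
      · rw [hj, min_eq_left h]
        exact (Nat.lt_floor_add_one _).le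
      · rw [hj, min_eq_right h]
        have : ((m - 1 : ℕ) : ℝ) + 1 = m := by
          have h3 : m - 1 + 1 = m := by omega
          exact_mod_cast h3
        rw [this]
        linarith
    rw [hT]
    simp only [Set.mem_iUnion]
    refine ⟨j, Finset.mem_range.2 hjm, ?_⟩
    refine ⟨⟨?_, ?_⟩, ?_⟩
    · linarith
    · linarith
    · have : z + j + (-(z + j) + y) = y := by ring
      rw [this]
      exact hu
  have hTm : (volume : Measure ℝ) T ≤ ENNReal.ofReal (m * δ) := by
    calc (volume : Measure ℝ) T ≤ ∑ i ∈ Finset.range m, (volume : Measure ℝ)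
          ((fun y => -(z + i) + y) ⁻¹' {v : ℝ | v ∈ Set.Icc (0 : ℝ) 1 ∧ nr δ ((z + i) + v)}) :=
          measure_biUnion_finset_le _ _
      _ = ∑ i ∈ Finset.range m, ENNReal.ofReal δ := by
          refine Finset.sum_congr rfl fun i _ => ?_
          rw [measure_preimage_add, hA _ _ h0 h1]
      _ = ENNReal.ofReal (m * δ) := by
          rw [Finset.sum_const, Finset.card_range, nsmul_eq_mul,
            ENNReal.ofReal_mul (Nat.cast_nonneg m), ENNReal.ofReal_natCast]
  calc (volume : Measure ℝ) {u : ℝ | u ∈ Set.Icc (0 : ℝ) 1 ∧ nr δ (c + l * u)}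
      ≤ (volume : Measure ℝ) ((fun u => l * u) ⁻¹' ((fun x => c + x) ⁻¹' T)) :=
        measure_mono hsub
    _ = ENNReal.ofReal |l⁻¹| * (volume : Measure ℝ) T := by
        rw [Real.volume_preimage_mul_left hl, measure_preimage_add]
    _ ≤ ENNReal.ofReal |l⁻¹| * ENNReal.ofReal (m * δ) := by gcongr
    _ = ENNReal.ofReal (|l⁻¹| * (m * δ)) := by
        rw [ENNReal.ofReal_mul (abs_nonneg _)]
    _ ≤ ENNReal.ofReal (δ * (1 + 1 / |l|)) := by
        apply ENNReal.ofReal_le_ofReal
        rw [abs_inv, inv_mul_le_iff₀ hlpos]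
        have : |l| * (δ * (1 + 1 / |l|)) = (|l| + 1) * δ := by
          field_simp
        rw [this]
        exact mul_le_mul_of_nonneg_right hmu h0

end Pool.Agent.H264.RO
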